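import Pool.Agent.TFB.Cross

/-! Long paths between two vertices (Erdos and Gallai), with a set of vertices about which nothing
is assumed. -/

namespace Pool.Agent.EG40

open List Pool.Agent.TF82 Pool.Agent.TFC Pool.Agent.TFB

universe u

set_option linter.unusedSectionVars false
set_option linter.unusedVariables false

variable {V : Type u} [DecidableEq V]

/-- a walk which can leave `K` only through `x` -/
theorem walk_to {G : SimpleGraph V} {S K T : Finset V} {x u : V}
    (hT : ∀ v ∈ S, v ∈ K ∨ v = x → v ∈ T)
    (hcl : ∀ v ∈ K, ∀ v' ∈ S, G.Adj v v' → v' ∈ K ∨ v' = x)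
    (h : Reach G S u x) (hu : u ∈ K) : Reach G T u x := by
  unfold Reach at h
  revert hu
  refine Relation.ReflTransGen.head_induction_on (motive := fun u _ => u ∈ K → Reach G T u x)
    h ?_ ?_
  · intro _
    exact Relation.ReflTransGen.refl
  · intro a c hac _ ih ha
    rcases hcl a ha c hac.2.1 hac.2.2 with hc | hc
    · exact Relation.ReflTransGen.head
        ⟨hT a hac.1 (Or.inl ha), hT c hac.2.1 (Or.inl hc), hac.2.2⟩ (ih hc)
    · subst hc
      exact Relation.ReflTransGen.single
        ⟨hT a hac.1 (Or.inl ha), hT c hac.2.1 (Or.inr rfl), hac.2.2⟩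

/-- a walk which can leave `C` only through `b` and `y` -/
theorem exit_two {G : SimpleGraph V} {S C T : Finset V} {b y t u : V}
    (hT : ∀ v ∈ S, v ∈ C ∨ v = b ∨ v = y → v ∈ T)
    (hcl : ∀ v ∈ C, ∀ v' ∈ S, G.Adj v v' → v' ∈ C ∨ v' = b ∨ v' = y) (ht : t ∉ C)
    (h : Reach G S u t) (hu : u ∈ C) :
    (b ∈ S ∧ Reach G T u b) ∨ (y ∈ S ∧ Reach G T u y) := by
  unfold Reach at h
  revert hu
  refine Relation.ReflTransGen.head_induction_on (motive := fun u _ => u ∈ C →
    (b ∈ S ∧ Reach G T u b) ∨ (y ∈ S ∧ Reach G T u y)) h ?_ ?_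
  · intro hu
    exact absurd hu ht
  · intro a c hac _ ih ha
    have haT : a ∈ T := hT a hac.1 (Or.inl ha)
    rcases hcl a ha c hac.2.1 hac.2.2 with hc | hc | hc
    · have hcT : c ∈ T := hT c hac.2.1 (Or.inl hc)
      rcases ih hc with ⟨h1, h2⟩ | ⟨h1, h2⟩
      · exact Or.inl ⟨h1, Relation.ReflTransGen.head ⟨haT, hcT, hac.2.2⟩ h2⟩
      · exact Or.inr ⟨h1, Relation.ReflTransGen.head ⟨haT, hcT, hac.2.2⟩ h2⟩
    · subst hc
      exact Or.inl ⟨hac.2.1, Relation.ReflTransGen.single
        ⟨haT, hT c hac.2.1 (Or.inr (Or.inl rfl)), hac.2.2⟩⟩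
    · subst hc
      exact Or.inr ⟨hac.2.1, Relation.ReflTransGen.single
        ⟨haT, hT c hac.2.1 (Or.inr (Or.inr rfl)), hac.2.2⟩⟩

/-- the part of a walk after its last visit of `C` -/
theorem after_last {G : SimpleGraph V} {S C : Finset V} {b u t : V}
    (hcl : ∀ v ∈ C, ∀ v' ∈ S, G.Adj v v' → v' ∈ C ∨ v' = b)
    (h : Reach G S u t) (hu : u ∈ C) : t ∈ C ∨ Reach G (S \ C) b t := by
  unfold Reach at h
  induction h with
  | refl => exact Or.inl hu
  | @tail v v' _ hvv ih =>
    by_cases hv' : v' ∈ C
    · exact Or.inl hv'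
    right
    rcases ih with hv | hv
    · rcases hcl v hv v' hvv.2.1 hvv.2.2 with h1 | h1
      · exact absurd h1 hv'
      · rw [h1]
        exact Relation.ReflTransGen.refl
    · by_cases hvC : v ∈ C
      · rcases hcl v hvC v' hvv.2.1 hvv.2.2 with h1 | h1
        · exact absurd h1 hv'
        · rw [h1]
          exact Relation.ReflTransGen.refl
      · exact Relation.ReflTransGen.tail hv
          ⟨Finset.mem_sdiff.2 ⟨hvv.1, hvC⟩, Finset.mem_sdiff.2 ⟨hvv.2.1, hv'⟩, hvv.2.2⟩

/-- the last vertex before `y` -/
theorem before_last {G : SimpleGraph V} {S : Finset V} {u y : V} (h : Reach G S u y)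
    (hu : u ≠ y) : ∃ y', Reach G (S.erase y) u y' ∧ y' ∈ S.erase y ∧ G.Adj y' y := by
  unfold Reach at h
  revert hu
  refine Relation.ReflTransGen.head_induction_on (motive := fun u _ => u ≠ y →
    ∃ y', Reach G (S.erase y) u y' ∧ y' ∈ S.erase y ∧ G.Adj y' y) h ?_ ?_
  · intro hu
    exact absurd rfl hu
  · intro a c hac _ ih ha
    have haS : a ∈ S.erase y := Finset.mem_erase.2 ⟨ha, hac.1⟩
    by_cases hc : c = y
    · subst hc
      exact ⟨a, Relation.ReflTransGen.refl, haS, hac.2.2⟩
    · obtain ⟨y', h1, h2, h3⟩ := ih hc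
      exact ⟨y', Relation.ReflTransGen.head
        ⟨haS, Finset.mem_erase.2 ⟨hc, hac.2.1⟩, hac.2.2⟩ h1, h2, h3⟩

/-- a walk from a vertex of its component stays in the component -/
theorem reach_in {G : SimpleGraph V} {S K : Finset V} {u t : V}
    (hcl : ∀ v ∈ K, ∀ v' ∈ S, G.Adj v v' → v' ∈ K) (h : Reach G S u t) (hu : u ∈ K) :
    Reach G K u t ∧ t ∈ K := by
  unfold Reach at h
  induction h with
  | refl => exact ⟨Relation.ReflTransGen.refl, hu⟩
  | @tail v v' _ hvv ih =>
    obtain ⟨h1, h2⟩ := ih
    have h3 := hcl v h2 v' hvv.2.1 hvv.2.2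
    exact ⟨Relation.ReflTransGen.tail h1 ⟨h2, h3, hvv.2.2⟩, h3⟩

/-- adding one vertex at the end -/
theorem seg_snoc {G : SimpleGraph V} {q : List V} {x y' y : V} (hq : Seg G q x y')
    (h : G.Adj y' y) : Seg G (q ++ [y]) x y := by
  have h1 : Seg G [y] y y := ⟨by simp, by simp, by simp⟩
  have := link_seg (X := []) hq (by simpa using h) h1
  simpa using this

theorem eg_low {G : SimpleGraph V} [DecidableRel G.Adj] : ∀ (n D : ℕ) (U Low : Finset V)
    (x y : V), U.card ≤ n → x ∈ U → y ∈ U → x ≠ y →
    (∀ w ∈ U, ∀ u ∈ U \ Low, u ≠ w →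
      (x ≠ w ∧ Reach G (U.erase w) u x) ∨ (y ≠ w ∧ Reach G (U.erase w) u y)) →
    (∃ u ∈ U \ Low, u ≠ x ∧ u ≠ y) →
    (∀ u ∈ U \ Low, u ≠ x → u ≠ y → D ≤ dU G ((U \ Low) ∪ {x, y}) u) →
    ∃ q : List V, Seg G q x y ∧ q.Nodup ∧ (∀ z ∈ q, z ∈ U) ∧ D + 1 ≤ q.length := by
  classical
  intro n
  induction n with
  | zero =>
    intro D U Low x y hn hx
    have : U = ∅ := Finset.card_eq_zero.1 (by omega)
    rw [this] at hx
    simp at hx
  | succ n ih =>
    intro D U Low x y hn hx hy hxy hcon hex hdeg
    by_cases hA : ∃ b ∈ U, b ≠ x ∧ b ≠ y ∧ ∃ u0 ∈ U \ Low, u0 ≠ b ∧ u0 ≠ y ∧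
        ¬ Reach G ((U.erase b).erase y) u0 x
    · obtain ⟨b, hb, hbx, hby, u0, hu0, hu0b, hu0y, hnr⟩ := hA
      have hu0U : u0 ∈ U := (Finset.mem_sdiff.1 hu0).1
      set C : Finset V := ((U.erase b).erase y).filter
        (fun v => Reach G ((U.erase b).erase y) u0 v) with hC
      have hCm : ∀ v, v ∈ C ↔ (v ≠ y ∧ v ≠ b ∧ v ∈ U) ∧
          Reach G ((U.erase b).erase y) u0 v := by
        intro v
        rw [hC, Finset.mem_filter, Finset.mem_erase, Finset.mem_erase]
      have hu0C : u0 ∈ C := (hCm u0).2 ⟨⟨hu0y, hu0b, hu0U⟩, Relation.ReflTransGen.refl⟩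
      have hxC : x ∉ C := fun h => hnr ((hCm x).1 h).2
      have hyC : y ∉ C := fun h => ((hCm y).1 h).1.1 rfl
      have hbC : b ∉ C := fun h => ((hCm b).1 h).1.2.1 rfl
      have hcl : ∀ v ∈ C, ∀ v' ∈ U, G.Adj v v' → v' ∈ C ∨ v' = b ∨ v' = y := by
        intro v hv v' hv' hadj
        by_cases h1 : v' = b
        · exact Or.inr (Or.inl h1)
        by_cases h2 : v' = y
        · exact Or.inr (Or.inr h2)
        left
        have hv2 := (hCm v).1 hv
        refine (hCm v').2 ⟨⟨h2, h1, hv'⟩, Relation.ReflTransGen.tail hv2.2 ⟨?_, ?_, hadj⟩⟩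
        · rw [Finset.mem_erase, Finset.mem_erase]
          exact hv2.1
        · rw [Finset.mem_erase, Finset.mem_erase]
          exact ⟨h2, h1, hv'⟩
      obtain ⟨U1, hU1m⟩ : ∃ U1 : Finset V, ∀ v, v ∈ U1 ↔ v = b ∨ v = y ∨ v ∈ C :=
        ⟨insert b (insert y C), fun v => by rw [Finset.mem_insert, Finset.mem_insert]⟩
      have hU1U : U1 ⊆ U := by
        intro v hv
        rcases (hU1m v).1 hv with rfl | rfl | h
        · exact hb
        · exact hy
        · exact ((hCm v).1 h).1.2.2
      have hxU1 : x ∉ U1 := by
        intro h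
        rcases (hU1m x).1 h with h | h | h
        · exact hbx h.symm
        · exact hxy h
        · exact hxC h
      have hcard : U1.card ≤ n := by
        have : U1.card < U.card := Finset.card_lt_card
          ⟨hU1U, fun h => hxU1 (h hx)⟩
        omega
      obtain ⟨q1, hq1, hq1n, hq1U, hq1l⟩ := ih D U1 Low b y hcard ((hU1m b).2 (Or.inl rfl))
        ((hU1m y).2 (Or.inr (Or.inl rfl))) hby (by
          intro w hw u hu huw
          obtain ⟨hu1, hu2⟩ := Finset.mem_sdiff.1 hu
          rcases (hU1m u).1 hu1 with rfl | rfl | huC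
          · exact Or.inl ⟨huw, Relation.ReflTransGen.refl⟩
          · exact Or.inr ⟨huw, Relation.ReflTransGen.refl⟩
          · have hT : ∀ v ∈ U.erase w, v ∈ C ∨ v = b ∨ v = y → v ∈ U1.erase w := by
              intro v hv h
              refine Finset.mem_erase.2 ⟨(Finset.mem_erase.1 hv).1, (hU1m v).2 ?_⟩
              tauto
            have hcl' : ∀ v ∈ C, ∀ v' ∈ U.erase w, G.Adj v v' → v' ∈ C ∨ v' = b ∨ v' = y :=
              fun v hv v' hv' h => hcl v hv v' (Finset.mem_of_mem_erase hv') h
            have h1 : (b ∈ U.erase w ∧ Reach G (U1.erase w) u b) ∨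
                (y ∈ U.erase w ∧ Reach G (U1.erase w) u y) := by
              rcases hcon w (hU1U hw) u (Finset.mem_sdiff.2 ⟨hU1U hu1, hu2⟩) huw with
                ⟨-, h⟩ | ⟨-, h⟩
              · exact exit_two hT hcl' hxC h huC
              · exact exit_two hT hcl' hyC h huC
            rcases h1 with ⟨h2, h3⟩ | ⟨h2, h3⟩
            · exact Or.inl ⟨(Finset.mem_erase.1 h2).1, h3⟩
            · exact Or.inr ⟨(Finset.mem_erase.1 h2).1, h3⟩)
        ⟨u0, Finset.mem_sdiff.2 ⟨(hU1m u0).2 (Or.inr (Or.inr hu0C)), (Finset.mem_sdiff.1 hu0).2⟩,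
          hu0b, hu0y⟩
        (by
          intro u hu hub huy
          obtain ⟨hu1, hu2⟩ := Finset.mem_sdiff.1 hu
          have huC : u ∈ C := by
            rcases (hU1m u).1 hu1 with h | h | h
            · exact absurd h hub
            · exact absurd h huy
            · exact h
          refine (hdeg u (Finset.mem_sdiff.2 ⟨hU1U hu1, hu2⟩)
            (fun h => hxC (h ▸ huC)) huy).trans ?_
          unfold dU
          apply Finset.card_le_card
          intro v hv
          rw [Finset.mem_filter, Finset.mem_union, Finset.mem_sdiff, Finset.mem_insert,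
            Finset.mem_singleton] at hv ⊢
          obtain ⟨hv, huv⟩ := hv
          have hvU : v ∈ U := by
            rcases hv with h | rfl | rfl
            · exact h.1
            · exact hx
            · exact hy
          refine ⟨?_, huv⟩
          rcases hcl u huC v hvU huv with h | h | h
          · left
            refine ⟨(hU1m v).2 (Or.inr (Or.inr h)), ?_⟩
            rcases hv with h1 | rfl | rfl
            · exact h1.2
            · exact absurd h hxC
            · exact absurd h hyC
          · exact Or.inr (Or.inl h)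
          · exact Or.inr (Or.inr h))
      -- from `x` to `b`
      have h2 : Reach G (U.erase y) u0 x := by
        rcases hcon y hy u0 hu0 hu0y with ⟨-, h⟩ | ⟨h, -⟩
        · exact h
        · exact absurd rfl h
      have h3 := after_last (S := U.erase y) (C := C) (b := b) (by
        intro v hv v' hv' hadj
        rcases hcl v hv v' (Finset.mem_of_mem_erase hv') hadj with h | h | h
        · exact Or.inl h
        · exact Or.inr h
        · exact absurd h (Finset.mem_erase.1 hv').1) h2 hu0C
      have h4 : Reach G (U.erase y \ C) x b := by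
        rcases h3 with h | h
        · exact absurd h hxC
        · exact h.symm
      obtain ⟨q0, hq0n, hq0c, hq0h, hq0l, hq0U⟩ := h4.path
        (Finset.mem_sdiff.2 ⟨Finset.mem_erase.2 ⟨hxy, hx⟩, hxC⟩)
      -- glue
      rcases q1 with _ | ⟨b', r⟩
      · have := hq1.hd
        simp at this
      have hb' : b' = b := by
        have := hq1.hd
        simpa using this
      subst hb'
      rcases r with _ | ⟨r0, r⟩
      · exfalso
        have := hq1.lt
        simp at this
        exact hby this
      have hadj : G.Adj b' r0 := (List.isChain_cons.1 hq1.ch).1 r0 (by simp)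
      have hr : Seg G (r0 :: r) r0 y := ⟨(List.isChain_cons.1 hq1.ch).2, by simp, by
        have := hq1.lt
        simpa using this⟩
      have hseg := link_seg (X := []) (⟨hq0c, hq0h, hq0l⟩ : Seg G q0 x b')
        (by simpa using hadj) hr
      rw [List.nil_append] at hseg
      refine ⟨q0 ++ (r0 :: r), hseg, ?_, ?_, ?_⟩
      · rw [List.nodup_append]
        refine ⟨hq0n, (List.nodup_cons.1 hq1n).2, ?_⟩
        rintro a ha a' ha' rfl
        have h5 := Finset.mem_sdiff.1 (hq0U a ha)
        have h6 := hq1U a (List.mem_cons_of_mem _ ha')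
        rcases (hU1m a).1 h6 with h | h | h
        · rw [h] at ha'
          exact (List.nodup_cons.1 hq1n).1 ha'
        · exact (Finset.mem_erase.1 h5.1).1 h
        · exact h5.2 h
      · intro z hz
        rcases List.mem_append.1 hz with h | h
        · exact Finset.mem_of_mem_erase (Finset.mem_sdiff.1 (hq0U z h)).1
        · exact hU1U (hq1U z (List.mem_cons_of_mem _ h))
      · have h7 : 1 ≤ q0.length := by
          rcases q0 with _ | ⟨a, q0⟩
          · simp at hq0h
          · simp
        rw [List.length_append]
        simp only [List.length_cons] at hq1l ⊢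
        omega
    · push Not at hA
      obtain ⟨u0, hu0, hu0x, hu0y⟩ := hex
      have hu0U : u0 ∈ U := (Finset.mem_sdiff.1 hu0).1
      have h1 : Reach G (U.erase x) u0 y := by
        rcases hcon x hx u0 hu0 hu0x with ⟨h, -⟩ | ⟨-, h⟩
        · exact absurd rfl h
        · exact h
      obtain ⟨y', hy1, hy2, hy3⟩ := before_last h1 hu0y
      set S : Finset V := (U.erase x).erase y with hS
      have hSm : ∀ v, v ∈ S ↔ v ≠ y ∧ v ≠ x ∧ v ∈ U := by
        intro v
        rw [hS, Finset.mem_erase, Finset.mem_erase]
      set K : Finset V := S.filter (fun v => Reach G S u0 v) with hK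
      have hKm : ∀ v, v ∈ K ↔ v ∈ S ∧ Reach G S u0 v := by
        intro v
        rw [hK, Finset.mem_filter]
      have hu0K : u0 ∈ K := (hKm u0).2 ⟨(hSm u0).2 ⟨hu0y, hu0x, hu0U⟩,
        Relation.ReflTransGen.refl⟩
      have hy'K : y' ∈ K := (hKm y').2 ⟨hy2, hy1⟩
      have hy'x : y' ≠ x := ((hSm y').1 hy2).2.1
      have hxK : x ∉ K := fun h => ((hSm x).1 ((hKm x).1 h).1).2.1 rfl
      have hyK : y ∉ K := fun h => ((hSm y).1 ((hKm y).1 h).1).1 rfl
      have hclS : ∀ v ∈ K, ∀ v' ∈ S, G.Adj v v' → v' ∈ K := by
        intro v hv v' hv' hadj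
        have := (hKm v).1 hv
        exact (hKm v').2 ⟨hv', Relation.ReflTransGen.tail this.2 ⟨this.1, hv', hadj⟩⟩
      have hcl : ∀ v ∈ K, ∀ v' ∈ U, G.Adj v v' → v' ∈ K ∨ v' = x ∨ v' = y := by
        intro v hv v' hv' hadj
        by_cases h1 : v' = x
        · exact Or.inr (Or.inl h1)
        by_cases h2 : v' = y
        · exact Or.inr (Or.inr h2)
        exact Or.inl (hclS v hv v' ((hSm v').2 ⟨h2, h1, hv'⟩) hadj)
      have hKU : K ⊆ U := fun v hv => ((hSm v).1 ((hKm v).1 hv).1).2.2
      obtain ⟨U2, hU2m⟩ : ∃ U2 : Finset V, ∀ v, v ∈ U2 ↔ v = x ∨ v ∈ K :=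
        ⟨insert x K, fun v => by rw [Finset.mem_insert]⟩
      have hU2U : U2 ⊆ U := by
        intro v hv
        rcases (hU2m v).1 hv with rfl | h
        · exact hx
        · exact hKU h
      have hyU2 : y ∉ U2 := by
        intro h
        rcases (hU2m y).1 h with h | h
        · exact hxy h.symm
        · exact hyK h
      have hcard : U2.card ≤ n := by
        have : U2.card < U.card := Finset.card_lt_card
          ⟨hU2U, fun h => hyU2 (h hy)⟩
        omega
      have hfin : (∃ q : List V, Seg G q x y' ∧ q.Nodup ∧ (∀ z ∈ q, z ∈ U2) ∧ D ≤ q.length) →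
          ∃ q : List V, Seg G q x y ∧ q.Nodup ∧ (∀ z ∈ q, z ∈ U) ∧ D + 1 ≤ q.length := by
        rintro ⟨q, hq, hqn, hqU, hql⟩
        refine ⟨q ++ [y], seg_snoc hq hy3, ?_, ?_, ?_⟩
        · rw [List.nodup_append]
          refine ⟨hqn, by simp, ?_⟩
          rintro a ha b hb rfl
          rw [List.mem_singleton] at hb
          rw [hb] at ha
          exact hyU2 (hqU y ha)
        · intro z hz
          rcases List.mem_append.1 hz with h | h
          · exact hU2U (hqU z h)
          · rw [List.mem_singleton] at h
            rw [h]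
            exact hy
        · rw [List.length_append, List.length_singleton]
          omega
      apply hfin
      by_cases hD : D ≤ 2
      · -- any path will do
        have h2 : Reach G (U.erase y) u0 x := by
          rcases hcon y hy u0 hu0 hu0y with ⟨-, h⟩ | ⟨h, -⟩
          · exact h
          · exact absurd rfl h
        have h3 : Reach G U2 u0 x := walk_to (S := U.erase y) (K := K)
          (by
            intro v hv h
            exact (hU2m v).2 h.symm)
          (by
            intro v hv v' hv' hadj
            rcases hcl v hv v' (Finset.mem_of_mem_erase hv') hadj with h | h | h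
            · exact Or.inl h
            · exact Or.inr h
            · exact absurd h (Finset.mem_erase.1 hv').1) h2 hu0K
        have h4 : Reach G U2 u0 y' :=
          (reach_in hclS hy1 hu0K).1.mono (fun v hv => (hU2m v).2 (Or.inr hv))
        have h6 : Reach G U2 x y' := Relation.ReflTransGen.trans h3.symm h4
        obtain ⟨q, hqn, hqc, hqh, hql, hqU⟩ := h6.path ((hU2m x).2 (Or.inl rfl))
        refine ⟨q, ⟨hqc, hqh, hql⟩, hqn, hqU, ?_⟩
        rcases q with _ | ⟨a, q⟩
        · simp at hqh
        rcases q with _ | ⟨a', q⟩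
        · exfalso
          simp at hqh hql
          exact hy'x (by rw [← hql, hqh])
        · simp only [List.length_cons]
          omega
      · obtain ⟨q, hq, hqn, hqU, hql⟩ := ih (D - 1) U2 Low x y' hcard ((hU2m x).2 (Or.inl rfl))
          ((hU2m y').2 (Or.inr hy'K)) (Ne.symm hy'x) (by
            intro w hw u hu huw
            obtain ⟨hu1, hu2⟩ := Finset.mem_sdiff.1 hu
            rcases (hU2m u).1 hu1 with rfl | huK
            · exact Or.inl ⟨huw, Relation.ReflTransGen.refl⟩
            rcases (hU2m w).1 hw with rfl | hwK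
            · right
              refine ⟨hy'x, ?_⟩
              have h5 : Reach G S u y' :=
                Relation.ReflTransGen.trans ((hKm u).1 huK).2.symm hy1
              refine (reach_in hclS h5 huK).1.mono ?_
              intro v hv
              exact Finset.mem_erase.2 ⟨fun h => hxK (h ▸ hv), (hU2m v).2 (Or.inr hv)⟩
            · left
              have hwx : w ≠ x := fun h => hxK (h ▸ hwK)
              have hwy : w ≠ y := fun h => hyK (h ▸ hwK)
              have huy : u ≠ y := fun h => hyK (h ▸ huK)
              refine ⟨hwx.symm, ?_⟩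
              have h5 := hA w (hKU hwK) hwx hwy u
                (Finset.mem_sdiff.2 ⟨hKU huK, hu2⟩) huw huy
              refine walk_to (S := (U.erase w).erase y) (K := K) ?_ ?_ h5 huK
              · intro v hv h
                refine Finset.mem_erase.2 ⟨?_, (hU2m v).2 h.symm⟩
                exact (Finset.mem_erase.1 (Finset.mem_of_mem_erase hv)).1
              · intro v hv v' hv' hadj
                rcases hcl v hv v' (Finset.mem_of_mem_erase (Finset.mem_of_mem_erase hv')) hadj
                  with h | h | h
                · exact Or.inl h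
                · exact Or.inr h
                · exact absurd h (Finset.mem_erase.1 hv').1)
          (by
            by_cases h5 : u0 = y'
            · -- a third neighbour of `u0`
              have h6 := hdeg u0 hu0 hu0x hu0y
              have h7 : ∃ v ∈ ((U \ Low) ∪ {x, y}).filter (fun v => G.Adj u0 v),
                  v ∉ ({x, y} : Finset V) := by
                by_contra hcon2
                push Not at hcon2
                have h8 : ((U \ Low) ∪ {x, y}).filter (fun v => G.Adj u0 v) ⊆ {x, y} :=
                  fun v hv => hcon2 v hv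
                have h9 := Finset.card_le_card h8
                have h10 : ({x, y} : Finset V).card ≤ 2 := Finset.card_le_two
                unfold dU at h6
                omega
              obtain ⟨v, hv1, hv2⟩ := h7
              rw [Finset.mem_filter, Finset.mem_union] at hv1
              have hv3 : v ∈ U \ Low := by
                rcases hv1.1 with h | h
                · exact h
                · exact absurd h hv2
              rw [Finset.mem_insert, Finset.mem_singleton] at hv2
              push Not at hv2
              have hvK : v ∈ K := by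
                rcases hcl u0 hu0K v (Finset.mem_sdiff.1 hv3).1 hv1.2 with h | h | h
                · exact h
                · exact absurd h hv2.1
                · exact absurd h hv2.2
              refine ⟨v, Finset.mem_sdiff.2 ⟨(hU2m v).2 (Or.inr hvK),
                (Finset.mem_sdiff.1 hv3).2⟩, hv2.1, ?_⟩
              rw [← h5]
              exact hv1.2.ne'
            · exact ⟨u0, Finset.mem_sdiff.2 ⟨(hU2m u0).2 (Or.inr hu0K),
                (Finset.mem_sdiff.1 hu0).2⟩, hu0x, h5⟩)
          (by
            intro u hu hux huy'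
            obtain ⟨hu1, hu2⟩ := Finset.mem_sdiff.1 hu
            have huK : u ∈ K := by
              rcases (hU2m u).1 hu1 with h | h
              · exact absurd h hux
              · exact h
            have huy : u ≠ y := fun h => hyK (h ▸ huK)
            have h5 := hdeg u (Finset.mem_sdiff.2 ⟨hKU huK, hu2⟩) hux huy
            have h6 : ((U \ Low) ∪ {x, y}).filter (fun v => G.Adj u v) ⊆
                insert y (((U2 \ Low) ∪ {x, y'}).filter (fun v => G.Adj u v)) := by
              intro v hv
              rw [Finset.mem_filter, Finset.mem_union, Finset.mem_sdiff, Finset.mem_insert,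
                Finset.mem_singleton] at hv
              rw [Finset.mem_insert, Finset.mem_filter, Finset.mem_union, Finset.mem_sdiff,
                Finset.mem_insert, Finset.mem_singleton]
              obtain ⟨hv, huv⟩ := hv
              have hvU : v ∈ U := by
                rcases hv with h | rfl | rfl
                · exact h.1
                · exact hx
                · exact hy
              rcases hcl u huK v hvU huv with h | h | h
              · right
                refine ⟨Or.inl ⟨(hU2m v).2 (Or.inr h), ?_⟩, huv⟩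
                rcases hv with h1 | rfl | rfl
                · exact h1.2
                · exact absurd h hxK
                · exact absurd h hyK
              · exact Or.inr ⟨Or.inr (Or.inl h), huv⟩
              · exact Or.inl h
            have h7 := Finset.card_le_card h6
            have h8 := Finset.card_insert_le y
              (((U2 \ Low) ∪ {x, y'}).filter (fun v => G.Adj u v))
            unfold dU at h5 ⊢
            omega)
        exact ⟨q, hq, hqn, hqU, by omega⟩

end Pool.Agent.EG40
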